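import Pool.Agent.Helper17_Hall.Rects

/-!
# Symmetric designs that are approximated by few rectangles of small sign rank

The pairs (point, block) of a symmetric `2-(v, k, lam)` design are partitioned into `R` rectangles. On the `r`-th
rectangle every point `i` and every block `j` is labelled by a vector of `ℝ ^ d`, and the sign of the inner product
`⟨a r i, b r j⟩` is a guess for the incidence of `i` and `j` (a protocol of `log R` bits followed by a protocol of
unbounded error and `log d` bits; for `R = 1`: the points are points and the blocks are half-spaces of `ℝ ^ d`, or the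
blocks are given by inequalities `f j > 0` with `f j` in a `d`-dimensional space of functions, for instance of
polynomials). Let `missed` and `falseAlarms` be the numbers of the incident and of the other pairs for which the guess
is wrong. If `2 k ≤ v` then

  `v ^ 2 k ≤ d (v ^ 2 √(R (k - lam)) + v * missed + 2 k * falseAlarms)`.

If the guess is right for all but `1 / (4 d)` of the `v k` incident pairs and all but `v ^ 2 / (8 d)` of the others,
then `v ≤ 16 R ^ 2 d ^ 4 + 4 lam + 1`: Hall's conjecture holds for these designs.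
-/

set_option autoImplicit false

namespace Pool.Agent.Results.MP_c38931_co.ApproximateSignRank

open Finset

/-- The blocks `B j` (`j : Fin v`) form a symmetric `2-(v, k, lam)` design on the points `Fin v`
with `2 ≤ k < v`. -/
structure IsSymmetricDesign (v k lam : ℕ) (B : Fin v → Finset (Fin v)) : Prop where
  two_le : 2 ≤ k
  lt : k < v
  size : ∀ j, (B j).card = k
  pair : ∀ x y : Fin v, x ≠ y →
    (Finset.univ.filter (fun j => x ∈ B j ∧ y ∈ B j)).card = lam

/-- A partition of the pairs (point, block) into `R` rectangles `P r × Q r`, and on each rectangle vectors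
`a r i`, `b r j` in `ℝ ^ d` for the points `i` and the blocks `j`. The guess is that `i` lies on the block `j`
of the same rectangle if and only if `⟨a r i, b r j⟩ > 0`. -/
structure Labelling (v R d : ℕ) where
  P : Fin R → Finset (Fin v)
  Q : Fin R → Finset (Fin v)
  partition : ∀ i j : Fin v, ∃! r, i ∈ P r ∧ j ∈ Q r
  a : Fin R → Fin v → Fin d → ℝ
  b : Fin R → Fin v → Fin d → ℝ

open Classical in
/-- The number of the pairs (point, block) with `i ∈ B j` and `⟨a r i, b r j⟩ ≤ 0` in their rectangle. -/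
noncomputable def missed {v R d : ℕ} (B : Fin v → Finset (Fin v)) (L : Labelling v R d) : ℕ :=
  ∑ r, ((L.P r ×ˢ L.Q r).filter fun z => z.1 ∈ B z.2 ∧ L.a r z.1 ⬝ᵥ L.b r z.2 ≤ 0).card

open Classical in
/-- The number of the pairs (point, block) with `i ∉ B j` and `⟨a r i, b r j⟩ ≥ 0` in their rectangle. -/
noncomputable def falseAlarms {v R d : ℕ} (B : Fin v → Finset (Fin v)) (L : Labelling v R d) : ℕ :=
  ∑ r, ((L.P r ×ˢ L.Q r).filter fun z => z.1 ∉ B z.2 ∧ 0 ≤ L.a r z.1 ⬝ᵥ L.b r z.2).card

/-- Let `B` be a symmetric `2-(v, k, lam)` design, `lam ≥ 1`, and let a labelling with `R` rectangles in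
dimension `d ≥ 1` be given.
(1) If `2 k ≤ v` then `v ^ 2 k ≤ d (v ^ 2 √(R (k - lam)) + v * missed + 2 k * falseAlarms)`.
(2) If at most `v k / (4 d)` incidences are missed and there are at most `v ^ 2 / (8 d)` false alarms, then
`k ≤ 4 R d ^ 2` or `k ≤ 2 lam`, and `v ≤ 16 R ^ 2 d ^ 4 + 4 lam + 1`. -/
theorem result (v k lam R d : ℕ) (hd : 1 ≤ d) (hlam : 1 ≤ lam) (B : Fin v → Finset (Fin v))
    (hB : IsSymmetricDesign v k lam B) (L : Labelling v R d) :
    (2 * k ≤ v → (v : ℝ) ^ 2 * k ≤ d * ((v : ℝ) ^ 2 * Real.sqrt (R * ((k : ℝ) - lam)) +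
      v * missed B L + 2 * k * falseAlarms B L)) ∧
    (4 * d * missed B L ≤ v * k → 8 * d * falseAlarms B L ≤ v ^ 2 →
      (k ≤ 4 * R * d ^ 2 ∨ k ≤ 2 * lam) ∧ v ≤ 16 * R ^ 2 * d ^ 4 + 4 * lam + 1) := by
  have hk := hB.two_le
  have hkv := hB.lt
  obtain ⟨hr, hkk⟩ := Pool.Agent.Helper17_Hall.repl v k lam (by omega) hlam B hB.size hB.pair
  have hv1 : ((v - 1 : ℕ) : ℝ) = (v : ℝ) - 1 := by
    rw [Nat.cast_sub (by omega)]
    norm_num
  have hkkR : (k : ℝ) * k = lam * ((v : ℝ) - 1) + k := by
    rw [← hv1]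
    exact_mod_cast hkk
  have hlk : lam < k := by
    by_contra hcon
    have h1 : k ≤ lam := not_lt.1 hcon
    have h2 : k * k ≤ lam * (v - 1) := Nat.mul_le_mul h1 (by omega)
    omega
  have hlkR : (lam : ℝ) < k := by exact_mod_cast hlk
  have hd0 : (0 : ℝ) < d := by exact_mod_cast hd
  have hk0 : (0 : ℝ) < k := by
    have : 0 < k := by omega
    exact_mod_cast this
  have hv0 : (0 : ℝ) < v := by
    have : 0 < v := by omega
    exact_mod_cast this
  have main : 2 * k ≤ v → (v : ℝ) ^ 2 * k ≤ d * ((v : ℝ) ^ 2 * Real.sqrt (R * ((k : ℝ) - lam)) +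
      v * missed B L + 2 * k * falseAlarms B L) := fun h2 =>
    Pool.Agent.Helper17_Hall.sum_bound hk h2 hr hB.pair hkkR hlkR hd L.P L.Q L.partition L.a L.b
  refine ⟨main, fun hm hf => ?_⟩
  by_cases h2 : 2 * k ≤ v
  · have h3 := main h2
    have hmR : (4 : ℝ) * d * missed B L ≤ v * k := by exact_mod_cast hm
    have hfR : (8 : ℝ) * d * falseAlarms B L ≤ v ^ 2 := by exact_mod_cast hf
    have h4 : (v : ℝ) ^ 2 * k ≤ v ^ 2 * (d * Real.sqrt (R * ((k : ℝ) - lam))) +
        v ^ 2 * k / 2 := by
      have e1 : (d : ℝ) * (v * missed B L) ≤ v ^ 2 * k / 4 := by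
        have := mul_le_mul_of_nonneg_left hmR hv0.le
        nlinarith
      have e2 : (d : ℝ) * (2 * k * falseAlarms B L) ≤ v ^ 2 * k / 4 := by
        have := mul_le_mul_of_nonneg_left hfR hk0.le
        nlinarith
      calc (v : ℝ) ^ 2 * k ≤ _ := h3
        _ = v ^ 2 * (d * Real.sqrt (R * ((k : ℝ) - lam))) + d * (v * missed B L) +
            d * (2 * k * falseAlarms B L) := by ring
        _ ≤ _ := by linarith
    have h5 : (k : ℝ) / 2 ≤ d * Real.sqrt (R * ((k : ℝ) - lam)) := by
      have e1 : (v : ℝ) ^ 2 * (k / 2) ≤ v ^ 2 * (d * Real.sqrt (R * ((k : ℝ) - lam))) := by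
        linarith
      exact le_of_mul_le_mul_left e1 (by positivity)
    have h6 : ((k : ℝ) / 2) ^ 2 ≤ d ^ 2 * (R * ((k : ℝ) - lam)) := by
      calc ((k : ℝ) / 2) ^ 2 ≤ (d * Real.sqrt (R * ((k : ℝ) - lam))) ^ 2 :=
            pow_le_pow_left₀ (by positivity) h5 2
        _ = _ := by
            rw [mul_pow, Real.sq_sqrt (mul_nonneg (Nat.cast_nonneg _) (by linarith))]
    have h7 : (k : ℝ) ≤ 4 * R * d ^ 2 := by
      have e1 : (d : ℝ) ^ 2 * (R * ((k : ℝ) - lam)) ≤ d ^ 2 * (R * k) := by
        refine mul_le_mul_of_nonneg_left (mul_le_mul_of_nonneg_left ?_ (Nat.cast_nonneg _))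
          (by positivity)
        have : (0 : ℝ) ≤ lam := Nat.cast_nonneg _
        linarith
      have e2 : (k : ℝ) * k ≤ (4 * R * d ^ 2) * k := by nlinarith
      exact le_of_mul_le_mul_right e2 hk0
    have h8 : k ≤ 4 * R * d ^ 2 := by exact_mod_cast h7
    refine ⟨Or.inl h8, ?_⟩
    have h9 : v - 1 ≤ lam * (v - 1) := Nat.le_mul_of_pos_left _ hlam
    have h10 : k * k ≤ (4 * R * d ^ 2) * (4 * R * d ^ 2) := Nat.mul_le_mul h8 h8
    have h11 : (4 * R * d ^ 2) * (4 * R * d ^ 2) = 16 * R ^ 2 * d ^ 4 := by ring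
    omega
  · have h3 : k ≤ 2 * lam := by
      by_contra hcon
      have h4 : 2 * lam + 1 ≤ k := by omega
      have h5 : v - 1 ≤ 2 * (k - 1) := by omega
      have h6 : lam * (v - 1) ≤ lam * (2 * (k - 1)) := Nat.mul_le_mul_left _ h5
      have h7 : lam * (2 * (k - 1)) = (2 * lam) * (k - 1) := by ring
      have h8 : (2 * lam + 1) * (k - 1) ≤ k * (k - 1) := Nat.mul_le_mul_right _ h4
      have h9 : (2 * lam + 1) * (k - 1) = (2 * lam) * (k - 1) + (k - 1) := by ring
      have h10 : k * (k - 1) + k = k * k := by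
        obtain ⟨j, rfl⟩ : ∃ j, k = j + 1 := ⟨k - 1, by omega⟩
        simp only [Nat.add_sub_cancel]
        ring
      omega
    exact ⟨Or.inr h3, by omega⟩

end Pool.Agent.Results.MP_c38931_co.ApproximateSignRank
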