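import Pool.Agent.Helper17_Hall.Weak
import Pool.Agent.Helper17_Hall.Exact

/-!
# Symmetric designs and unions of cells of half-spaces

For every `l < L` the points `i` and the blocks `j` are labelled by arbitrary vectors `u l i`, `w l j` of `ℝ ^ d`. For
each block `j` the half-spaces `⟨·, w l j⟩ > 0`, `l < L`, divide the points into at most `2 ^ L` cells.
`UnionOfCells u w G` says that for every block `j` the set `G j` of points is a union of such cells (an arbitrary Boolean
function, which may depend on the block, of `L` relations of sign rank at most `d`). Examples: relations given by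
Boolean combinations of at most `L` polynomial inequalities between coordinates of `i` and of `j`, where the polynomials
have at most `d` monomials (semialgebraic relations of bounded complexity in any dimension).

Theorem. Let `B` be a symmetric `2-(v, k, lam)` design, `lam ≥ 1`, and let `G` be such a relation.

* (1), (2) If `v` is large in terms of `d`, `L` and `δ` (for any `lam`) then the proportion of the incident pairs (point,
  block) that lie in `G` differs from the proportion of all pairs that lie in `G` by less than `δ`. In particular Hall's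
  conjecture holds for all designs whose incidence is predicted by such a relation with any fixed advantage `δ`.
* (3) If `G = B` then `v ≤ lam (8 d + 8) ^ (2 L) + ((8 d + 8) (8 d + 9) ^ (d + 1)) ^ (2 L)`, so `L` is at least a
  constant (depending on `d` and `lam`) times `log v`.
* (4) Conversely `L = ⌈log₂ v⌉` half-lines (`d = 1`) are enough for arbitrary blocks.

Proof: a relation of sign rank `d` is constant on a rectangle whose sides are at least the parts `1 / (8 d + 8)` of the
points and `(8 d + 9) ^ (- d - 1)` of the blocks (Forster's isotropic position and rounding). After `L` steps all the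
relations are constant on a rectangle `P × Q`, so every `G j` with `j` in `Q` contains `P` or is disjoint from it.
Iterating this, `G` is up to a small part of all pairs a union of boundedly many rectangles, and on rectangles the design
is regular.
-/

set_option autoImplicit false

namespace Pool.Agent.Results.MP_c38931_co.CellUnions

open Finset

/-- The blocks `B j` (`j : Fin v`) form a symmetric `2-(v, k, lam)` design on the points `Fin v`
with `2 ≤ k < v`. -/
structure IsSymmetricDesign (v k lam : ℕ) (B : Fin v → Finset (Fin v)) : Prop where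
  two_le : 2 ≤ k
  lt : k < v
  size : ∀ j, (B j).card = k
  pair : ∀ x y : Fin v, x ≠ y →
    (Finset.univ.filter (fun j => x ∈ B j ∧ y ∈ B j)).card = lam

/-- For every block `j` the set `G j` is a union of cells of the half-spaces `⟨·, w l j⟩ > 0`: two points `i`, `i'`
which lie in the same of these half-spaces are both in `G j` or both not in `G j`. -/
def UnionOfCells {v L d : ℕ} (u w : Fin L → Fin v → Fin d → ℝ) (G : Fin v → Finset (Fin v)) : Prop :=
  ∀ j i i', (∀ l, 0 < u l i ⬝ᵥ w l j ↔ 0 < u l i' ⬝ᵥ w l j) → (i ∈ G j ↔ i' ∈ G j)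

/-- The proportion of the incident pairs (point, block) that lie in `G`. -/
noncomputable def incidentPart {v : ℕ} (k : ℕ) (B G : Fin v → Finset (Fin v)) : ℝ :=
  ((∑ j, (B j ∩ G j).card : ℕ) : ℝ) / (v * k)

/-- The proportion of all pairs (point, block) that lie in `G`. -/
noncomputable def totalPart {v : ℕ} (G : Fin v → Finset (Fin v)) : ℝ :=
  ((∑ j, (G j).card : ℕ) : ℝ) / (v * v)

/-- the constant in the theorem -/
noncomputable def rate (d L : ℕ) : ℝ := (1 / ((8 * d + 8) * (8 * d + 9) ^ (d + 1))) ^ L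

lemma rate_pos (d L : ℕ) : 0 < rate d L := by
  unfold rate
  positivity

lemma rate_le (d L : ℕ) : rate d L ≤ 1 := by
  unfold rate
  refine pow_le_one₀ (by positivity) ?_
  rw [div_le_one (by positivity)]
  have h1 : (1 : ℝ) ≤ 8 * d + 8 := by
    have : (0 : ℝ) ≤ d := Nat.cast_nonneg d
    linarith
  have h2 : (1 : ℝ) ≤ (8 * (d : ℝ) + 9) ^ (d + 1) := by
    refine one_le_pow₀ ?_
    have : (0 : ℝ) ≤ d := Nat.cast_nonneg d
    linarith
  nlinarith

lemma quant {v k lam d L : ℕ} (hlam : 1 ≤ lam) (B : Fin v → Finset (Fin v))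
    (hB : IsSymmetricDesign v k lam B) (u w : Fin L → Fin v → Fin d → ℝ)
    (G : Fin v → Finset (Fin v)) (hG : UnionOfCells u w G) (t : ℕ) :
    |incidentPart k B G - totalPart G| ≤
      2 ^ (t + 1) * Real.sqrt ((k : ℝ) - lam) / k + 2 * (1 - rate d L) ^ t := by
  classical
  have hk := hB.two_le
  have hkv := hB.lt
  obtain ⟨hr, hkk⟩ := Pool.Agent.Helper17_Hall.repl v k lam (by omega) hlam B hB.size hB.pair
  have hv1 : ((v - 1 : ℕ) : ℝ) = (v : ℝ) - 1 := by
    rw [Nat.cast_sub (by omega)]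
    norm_num
  have hkkR : (k : ℝ) * k = lam * ((v : ℝ) - 1) + k := by
    rw [← hv1]
    exact_mod_cast hkk
  have hlk : lam < k := by
    by_contra hcon
    have h1 : k ≤ lam := not_lt.1 hcon
    have h2 : k * k ≤ lam * (v - 1) := Nat.mul_le_mul h1 (by omega)
    omega
  have hlkR : (lam : ℝ) < k := by exact_mod_cast hlk
  have hk0 : (0 : ℝ) < k := by
    have : 0 < k := by omega
    exact_mod_cast this
  have hv0 : (0 : ℝ) < v := by
    have : 0 < v := by omega
    exact_mod_cast this
  set M : ℝ := Real.sqrt (((v : ℝ) / k) ^ 2 * (k - lam)) * v with hM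
  have hMle := Pool.Agent.Helper17_Hall.rect_sum_abs hk hkv hr hB.pair hkkR hlkR
  have hrect : ∀ P Q : Finset (Fin v), ∃ P' ⊆ P, ∃ Q' ⊆ Q,
      rate d L * (P.card * Q.card) ≤ (P'.card : ℝ) * Q'.card ∧
      ∀ y ∈ Q', ∀ x ∈ P', ∀ x' ∈ P', (x ∈ G y ↔ x' ∈ G y) := by
    intro P Q
    obtain ⟨P', hP, Q', hQ, h1, h2, h3⟩ :=
      Pool.Agent.Helper17_Hall.homog_many P Q u w (univ : Finset (Fin L))
    rw [card_univ, Fintype.card_fin] at h1 h2
    refine ⟨P', hP, Q', hQ, ?_, ?_⟩
    · have h4 : P.card * Q.card ≤ ((8 * (d + 1)) ^ L * P'.card) *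
          (((8 * (d + 1) + 1) ^ (d + 1)) ^ L * Q'.card) := Nat.mul_le_mul h1 h2
      have h5 : ((P.card : ℝ) * Q.card) ≤ ((8 * (d + 1)) ^ L * P'.card) *
          (((8 * (d + 1) + 1) ^ (d + 1)) ^ L * Q'.card) := by exact_mod_cast h4
      have h6 : ((8 * ((d : ℝ) + 1)) ^ L * P'.card) *
          (((8 * ((d : ℝ) + 1) + 1) ^ (d + 1)) ^ L * Q'.card) =
          ((8 * (d : ℝ) + 8) * (8 * d + 9) ^ (d + 1)) ^ L * (P'.card * Q'.card) := by
        rw [mul_pow ((8 : ℝ) * d + 8)]
        have e1 : 8 * ((d : ℝ) + 1) = 8 * d + 8 := by ring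
        have e2 : (8 * (d : ℝ) + 8) + 1 = 8 * d + 9 := by ring
        rw [e1, e2]
        ring
      rw [h6] at h5
      unfold rate
      rw [one_div, inv_pow, inv_mul_le_iff₀ (by positivity)]
      exact h5
    · intro y hy x hx x' hx'
      refine hG y x x' fun l => ?_
      rcases h3 l (mem_univ l) with h | h
      · exact ⟨fun _ => h x' hx' y hy, fun _ => h x hx y hy⟩
      · exact ⟨fun hc => absurd hc (h x hx y hy), fun hc => absurd hc (h x' hx' y hy)⟩
  have hmain := Pool.Agent.Helper17_Hall.SG_main hMle G (rate d L) (rate_pos d L).le (rate_le d L)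
    hrect t univ univ
  rw [card_univ, Fintype.card_fin] at hmain
  have hSG : Pool.Agent.Helper17_Hall.SG k B G univ univ =
      (v : ℝ) ^ 2 * (incidentPart k B G - totalPart G) := by
    unfold Pool.Agent.Helper17_Hall.SG incidentPart totalPart
    rw [Finset.sum_comm]
    have e1 : ∀ y : Fin v, ∑ x, (if x ∈ G y then Pool.Agent.Helper17_Hall.Dm k B x y else 0) =
        (v : ℝ) / k * (B y ∩ G y).card - (G y).card := by
      intro y
      rw [← Finset.sum_filter]
      have e2 : univ.filter (fun x => x ∈ G y) = G y := by ext x; simp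
      rw [e2]
      unfold Pool.Agent.Helper17_Hall.Dm Pool.Agent.Helper17_Hall.inc
      rw [Finset.sum_sub_distrib, ← Finset.mul_sum, ← Finset.sum_filter]
      have e3 : (G y).filter (fun x => x ∈ B y) = B y ∩ G y := by
        ext x
        simp [and_comm]
      rw [e3]
      simp
    rw [Finset.sum_congr rfl fun y _ => e1 y, Finset.sum_sub_distrib, ← Finset.mul_sum]
    push_cast
    field_simp
  rw [hSG, abs_mul, abs_of_nonneg (by positivity : (0 : ℝ) ≤ (v : ℝ) ^ 2)] at hmain
  have hM2 : M = (v : ℝ) ^ 2 * (Real.sqrt ((k : ℝ) - lam) / k) := by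
    rw [hM, Real.sqrt_mul (by positivity), Real.sqrt_sq (by positivity)]
    ring
  have hM0 : 0 ≤ M := by
    rw [hM]
    positivity
  have h7 : (v : ℝ) ^ 2 * |incidentPart k B G - totalPart G| ≤
      v ^ 2 * (2 ^ (t + 1) * Real.sqrt ((k : ℝ) - lam) / k + 2 * (1 - rate d L) ^ t) := by
    calc (v : ℝ) ^ 2 * |incidentPart k B G - totalPart G|
        ≤ (2 ^ (t + 1) - 1) * M + 2 * (1 - rate d L) ^ t * (v * v) := hmain
      _ ≤ 2 ^ (t + 1) * M + 2 * (1 - rate d L) ^ t * (v * v) := by linarith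
      _ = _ := by rw [hM2]; ring
  exact le_of_mul_le_mul_left h7 (by positivity)

lemma qual (d L : ℕ) (δ : ℝ) (hδ : 0 < δ) :
    ∃ N : ℕ, ∀ (v k lam : ℕ) (B : Fin v → Finset (Fin v)), 1 ≤ lam → IsSymmetricDesign v k lam B →
      ∀ (u w : Fin L → Fin v → Fin d → ℝ) (G : Fin v → Finset (Fin v)), UnionOfCells u w G →
      N < v → |incidentPart k B G - totalPart G| < δ := by
  obtain ⟨t, ht⟩ := exists_pow_lt_of_lt_one (show (0 : ℝ) < δ / 4 by positivity)
    (show 1 - rate d L < 1 by linarith [rate_pos d L])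
  refine ⟨⌈(2 ^ (t + 2) / δ) ^ 2⌉₊ ^ 2 + 1, ?_⟩
  intro v k lam B hlam hB u w G hG hv
  have hk := hB.two_le
  have hkv := hB.lt
  obtain ⟨hr, hkk⟩ := Pool.Agent.Helper17_Hall.repl v k lam (by omega) hlam B hB.size hB.pair
  have h1 : v - 1 ≤ lam * (v - 1) := Nat.le_mul_of_pos_left _ hlam
  have h2 : ⌈(2 ^ (t + 2) / δ) ^ 2⌉₊ ^ 2 < k ^ 2 := by
    have : k ^ 2 = k * k := sq k
    omega
  have h3 : ⌈(2 ^ (t + 2) / δ) ^ 2⌉₊ < k := lt_of_pow_lt_pow_left₀ 2 (Nat.zero_le _) h2
  have h4 : ((2 : ℝ) ^ (t + 2) / δ) ^ 2 < k :=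
    lt_of_le_of_lt (Nat.le_ceil _) (by exact_mod_cast h3)
  have hk0 : (0 : ℝ) < k := by
    have : 0 < k := by omega
    exact_mod_cast this
  set s : ℝ := Real.sqrt k with hs
  have hs0 : 0 < s := Real.sqrt_pos.2 hk0
  have hs2 : s ^ 2 = k := Real.sq_sqrt hk0.le
  have h5 : (2 : ℝ) ^ (t + 2) / δ < s := by
    have : ((2 : ℝ) ^ (t + 2) / δ) ^ 2 < s ^ 2 := by rw [hs2]; exact h4
    exact lt_of_pow_lt_pow_left₀ 2 hs0.le this
  have h6 : (2 : ℝ) ^ (t + 2) < s * δ := (div_lt_iff₀ hδ).1 h5
  have h7 := quant hlam B hB u w G hG t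
  have h8 : 2 ^ (t + 1) * Real.sqrt ((k : ℝ) - lam) / k ≤ 2 ^ (t + 1) * s / k := by
    have : Real.sqrt ((k : ℝ) - lam) ≤ s := Real.sqrt_le_sqrt (by
      have : (0 : ℝ) ≤ lam := Nat.cast_nonneg _
      linarith)
    gcongr
  have h9 : (2 : ℝ) ^ (t + 1) * s / k < δ / 2 := by
    rw [div_lt_iff₀ hk0, ← hs2]
    have e1 : (2 : ℝ) ^ (t + 2) = 2 * 2 ^ (t + 1) := by rw [pow_succ]; ring
    rw [e1] at h6
    nlinarith
  linarith

lemma upper {v k lam d L : ℕ} (hlam : 1 ≤ lam) (B : Fin v → Finset (Fin v))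
    (hB : IsSymmetricDesign v k lam B) (u w : Fin L → Fin v → Fin d → ℝ)
    (hG : UnionOfCells u w B) :
    v ≤ lam * (8 * d + 8) ^ (2 * L) + ((8 * d + 8) * (8 * d + 9) ^ (d + 1)) ^ (2 * L) := by
  classical
  have hk := hB.two_le
  have hkv := hB.lt
  obtain ⟨hr, hkk⟩ := Pool.Agent.Helper17_Hall.repl v k lam (by omega) hlam B hB.size hB.pair
  have hlk : lam < k := by
    by_contra hcon
    have h1 : k ≤ lam := not_lt.1 hcon
    have h2 : k * k ≤ lam * (v - 1) := Nat.mul_le_mul h1 (by omega)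
    omega
  obtain ⟨P, _, Q, _, h1, h2, h3⟩ := Pool.Agent.Helper17_Hall.homog_many
    (univ : Finset (Fin v)) (univ : Finset (Fin v)) u w (univ : Finset (Fin L))
  rw [card_univ, card_univ, Fintype.card_fin, Fintype.card_fin] at h1 h2
  have h4 := Pool.Agent.Helper17_Hall.exact_bound hk hkv hlam hlk hB.size hr hB.pair hkk P Q h1 h2
    (by
      intro y hy x hx x' hx'
      refine hG y x x' fun l => ?_
      rcases h3 l (mem_univ l) with h | h
      · exact ⟨fun _ => h x' hx' y hy, fun _ => h x hx y hy⟩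
      · exact ⟨fun hc => absurd hc (h x hx y hy), fun hc => absurd hc (h x' hx' y hy)⟩)
  have e1 : ((8 * (d + 1)) ^ L) ^ 2 = (8 * d + 8) ^ (2 * L) := by
    rw [← pow_mul, mul_comm L 2]
    congr 1
  have e2 : ((8 * (d + 1)) ^ L * ((8 * (d + 1) + 1) ^ (d + 1)) ^ L) ^ 2 =
      ((8 * d + 8) * (8 * d + 9) ^ (d + 1)) ^ (2 * L) := by
    rw [← mul_pow, ← pow_mul, mul_comm L 2]
    congr 1
  rw [e1, e2] at h4
  exact h4

lemma lower (v : ℕ) (B : Fin v → Finset (Fin v)) :
    ∃ u w : Fin (Nat.clog 2 v) → Fin v → Fin 1 → ℝ, UnionOfCells u w B := by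
  refine ⟨fun l i _ => if (i : ℕ).testBit l then 1 else -1, fun _ _ _ => 1, ?_⟩
  intro j i i' h
  have hbit : ∀ l : Fin (Nat.clog 2 v), (i : ℕ).testBit l = (i' : ℕ).testBit l := by
    intro l
    have h1 := h l
    simp only [dotProduct, univ_unique, sum_singleton, mul_one] at h1
    by_cases hi : (i : ℕ).testBit l = true <;> by_cases hi' : (i' : ℕ).testBit l = true
    · rw [hi, hi']
    · exfalso
      rw [if_pos hi, if_neg hi'] at h1
      norm_num at h1
    · exfalso
      rw [if_neg hi, if_pos hi'] at h1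
      norm_num at h1
    · rw [Bool.not_eq_true] at hi hi'
      rw [hi, hi']
  have hv : v ≤ 2 ^ Nat.clog 2 v := Nat.le_pow_clog (by norm_num) v
  have heq : (i : ℕ) = i' := by
    refine Nat.eq_of_testBit_eq fun l => ?_
    by_cases hl : l < Nat.clog 2 v
    · exact hbit ⟨l, hl⟩
    · have h2 : 2 ^ Nat.clog 2 v ≤ 2 ^ l := Nat.pow_le_pow_right (by norm_num) (not_lt.1 hl)
      rw [Nat.testBit_lt_two_pow (lt_of_lt_of_le i.2 (hv.trans h2)),
        Nat.testBit_lt_two_pow (lt_of_lt_of_le i'.2 (hv.trans h2))]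
  rw [Fin.ext heq]

/-- Let `B` be a symmetric `2-(v, k, lam)` design, `lam ≥ 1`, and `G` a union of cells of `L` half-spaces of `ℝ ^ d`.
(1) For every `t`, the proportions of the incident pairs and of all pairs in `G` differ by at most
`2 ^ (t + 1) √(k - lam) / k + 2 (1 - rate d L) ^ t`.
(2) For all `d`, `L` and `δ > 0` there is `N` such that they differ by less than `δ` if `v > N`, for all `lam ≥ 1`.
(3) If the blocks themselves are unions of cells of `L` half-spaces of `ℝ ^ d` then
`v ≤ lam (8 d + 8) ^ (2 L) + ((8 d + 8) (8 d + 9) ^ (d + 1)) ^ (2 L)`.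
(4) Arbitrary blocks on `v` points are unions of cells of `⌈log₂ v⌉` half-spaces of `ℝ ^ 1`. -/
theorem result :
    (∀ (v k lam d L : ℕ) (B : Fin v → Finset (Fin v)), 1 ≤ lam → IsSymmetricDesign v k lam B →
      ∀ (u w : Fin L → Fin v → Fin d → ℝ) (G : Fin v → Finset (Fin v)), UnionOfCells u w G →
      ∀ t : ℕ, |incidentPart k B G - totalPart G| ≤
        2 ^ (t + 1) * Real.sqrt ((k : ℝ) - lam) / k + 2 * (1 - rate d L) ^ t) ∧
    (∀ (d L : ℕ) (δ : ℝ), 0 < δ → ∃ N : ℕ, ∀ (v k lam : ℕ) (B : Fin v → Finset (Fin v)),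
      1 ≤ lam → IsSymmetricDesign v k lam B →
      ∀ (u w : Fin L → Fin v → Fin d → ℝ) (G : Fin v → Finset (Fin v)), UnionOfCells u w G →
      N < v → |incidentPart k B G - totalPart G| < δ) ∧
    (∀ (v k lam d L : ℕ) (B : Fin v → Finset (Fin v)), 1 ≤ lam → IsSymmetricDesign v k lam B →
      ∀ u w : Fin L → Fin v → Fin d → ℝ, UnionOfCells u w B →
      v ≤ lam * (8 * d + 8) ^ (2 * L) + ((8 * d + 8) * (8 * d + 9) ^ (d + 1)) ^ (2 * L)) ∧
    (∀ (v : ℕ) (B : Fin v → Finset (Fin v)),
      ∃ u w : Fin (Nat.clog 2 v) → Fin v → Fin 1 → ℝ, UnionOfCells u w B) :=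
  ⟨fun v k lam d L B hlam hB u w G hG t => quant hlam B hB u w G hG t,
    fun d L δ hδ => qual d L δ hδ,
    fun v k lam d L B hlam hB u w hG => upper hlam B hB u w hG, fun v B => lower v B⟩

end Pool.Agent.Results.MP_c38931_co.CellUnions
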