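import Mathlib
import Pool.Agent.Helper394.SD.Base

set_option autoImplicit false

/-!
# Fixed `lam`: symmetric designs detected by sums in groups of small exponent

A `2-(v, k, lam)` design is detected by a map `f` of the points to an abelian group `G` if it depends only
on the sum of the values of `f` over a set of `k` points whether this set is a block (for instance, in a
strongly additive design the blocks are the sets of `k` points with sum zero).

If two different blocks have at most `lam` common points, then `k - lam` is at most the Davenport constant
of `G`. So `|G| ≥ exp ((k - lam - 1) / e)` if `e` is the exponent of `G`, and Hall's conjecture holds for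
the designs which are detected in groups with `e log |G| ≤ C v ^ (1 / 2 - ε)`, for instance in groups of
bounded exponent and of order at most `exp (v ^ (1 / 2 - ε))`.

Proof. Let `b t` be different points of a block, and `w t` different points outside, `t < m`,
`m < k - lam`. No nonempty subsequence of the differences `f (b t) - f (w t)` has sum zero, since
otherwise exchanging the points `b t` of the subsequence for the points `w t` gives a block which has
more than `lam` points in common with the given block. Such sequences are short: in elementary abelian
groups by the theorem of Chevalley and Warning (Olson), in general by choosing complex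
numbers `α t` of absolute value `1` such that for each character `χ` of `G` one of the factors of
`∏ (α t - χ (g t))` vanishes (van Emde Boas and Kruyswijk, Meshulam, Alford, Granville and Pomerance).
-/

namespace Pool.Agent.Results.MP_c38931_co.DetectionInSmallExponent

open Pool.Agent.Helper394.SD

/-- Let `f` be a map to an abelian group `G` which detects a `2-(v, k, lam)` design with `lam ≥ 1` and at most
`lam` points in the intersections of two blocks (for instance a symmetric design, by (4)). (1) If every
sequence of `m` elements of `G` has a nonempty subsequence with sum zero then `k ≤ lam + m`. (2) If `G` is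
elementary abelian of order `p ^ d` then `k ≤ lam + d (p - 1) + 1`. (3) If `G` is finite and `e g = 0` for
all `g` in `G` then `k ≤ lam + 1 + e log |G|`. (5) For all `lam ≥ 1`, `ε > 0` and `C` only finitely many
pairs `(v, k)` are the parameters of symmetric designs detected by maps to finite groups `G` with
`e g = 0` for all `g` and `e log |G| ≤ C v ^ (1 / 2 - ε)` for some `e ≥ 1`. -/
theorem result :
    (∀ (v k lam m : ℕ) (ι : Type) [Fintype ι] (B : ι → Finset (Fin v)) (G : Type)
      [AddCommGroup G] (f : Fin v → G), 1 ≤ lam → IsMeetDesign v k lam B → SumDetected k B f →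
      (∀ e : Fin m → G, ∃ I : Finset (Fin m), I.Nonempty ∧ ∑ t ∈ I, e t = 0) → k ≤ lam + m) ∧
    (∀ (v k lam p d : ℕ) (ι : Type) [Fintype ι] (B : ι → Finset (Fin v))
      (f : Fin v → (Fin d → ZMod p)), 1 ≤ lam → p.Prime → IsMeetDesign v k lam B →
      SumDetected k B f → k ≤ lam + d * (p - 1) + 1) ∧
    (∀ (v k lam e : ℕ) (ι : Type) [Fintype ι] (B : ι → Finset (Fin v)) (G : Type)
      [AddCommGroup G] [Fintype G] (f : Fin v → G), 1 ≤ lam → 1 ≤ e → (∀ g : G, e • g = 0) →
      IsMeetDesign v k lam B → SumDetected k B f →
      (k : ℝ) ≤ lam + 1 + e * Real.log (Fintype.card G)) ∧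
    (∀ (v k lam : ℕ) (B : Fin v → Finset (Fin v)), 1 ≤ lam → IsSymmetricDesign v k lam B →
      IsMeetDesign v k lam B) ∧
    (∀ (lam : ℕ) (ε C : ℝ), 1 ≤ lam → 0 < ε →
      {q : ℕ × ℕ | ∃ (B : Fin q.1 → Finset (Fin q.1)) (G : Type) (_ : AddCommGroup G)
        (_ : Fintype G) (f : Fin q.1 → G) (e : ℕ), 1 ≤ e ∧ (∀ g : G, e • g = 0) ∧
          IsSymmetricDesign q.1 q.2 lam B ∧ SumDetected q.2 B f ∧
          (e : ℝ) * Real.log (Fintype.card G) ≤ C * (q.1 : ℝ) ^ (1 / 2 - ε)}.Finite) := by
  refine ⟨?_, ?_, ?_, ?_, ?_⟩
  · intro v k lam m ι _ B G _ f hlam hD hf hm
    exact zero_sum_free hD hlam hf m hm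
  · intro v k lam p d ι _ B f hlam hp hD hf
    have := zero_sum_free hD hlam hf (d * (p - 1) + 1) (davenport p d hp)
    omega
  · intro v k lam e ι _ B G _ _ f hlam he hexp hD hf
    exact exponent_theorem hD hlam hf e he hexp
  · intro v k lam B hlam hD
    exact hD.meetDesign hlam
  · intro lam ε C hlam hε
    exact exponent_finiteness lam hlam ε C hε

end Pool.Agent.Results.MP_c38931_co.DetectionInSmallExponent
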