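import Mathlib
import Pool.Agent.Helper394.SD.Base

set_option autoImplicit false

/-!
# Fixed `lam`: symmetric designs detected by sums, and the sums of the pairs

A `2-(v, k, lam)` design is detected by a map `f` of the points to an abelian group `G` if it depends only
on the sum of the values of `f` over a set of `k` points whether this set is a block (for instance, in a
strongly additive design the blocks are the sets of `k` points with sum zero).

Let `lam ≥ 2`, let two different blocks have at most `lam` common points, and let `k ≥ lam + 3`. Then `f` is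
injective, and every element of `G` is the sum `f x + f y` of at most `lam + 2` ordered pairs of different
points, so `|G| ≥ v (v - 1) / (lam + 2)`. In particular Hall's conjecture holds for the designs which are
detected in groups of order at most `C v ^ (2 - ε)`.

Proof. Let `A` be a set of `j` points of a block `B i`, and let `C` be a set of `j` points outside `B i`,
`1 ≤ j < k - lam`. The sums over `A` and `C` are different, since otherwise exchanging `A` for `C` in
`B i` gives a block that has `k - j > lam` points in common with `B i`. The case `j = 1` shows that `f` is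
injective. Let `r ≥ 2` pairs have the same sum; they are disjoint; let `U` be the set of their points. By
the case `j = 2` a block which contains `x ≥ 1` of them meets all of them, so it has `r + x` points in
`U`. Now `(r + x) (r + x - 1) / 2 - (2 r - 1) x = (r - x) (r - x - 1) / 2 ≥ 0`, but the sum over all blocks
of the number of pairs of points of `U` in the block minus `2 r - 1` times the number of the given
pairs in it is `(2 r) (2 r - 1) lam / 2 - (2 r - 1) r lam = 0`. So a block with at least two points in `U`
contains all points of `U` with at most one exception. Two different blocks with two common points in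
`U` show `2 r - 2 ≤ lam`.
-/

namespace Pool.Agent.Results.MP_c38931_co.SumsOfPairs

open Pool.Agent.Helper394.SD

/-- (1) A map `f` to an abelian group which detects a `2-(v, k, lam)` design, `lam ≥ 2`, `k ≥ lam + 3`, with at
most `lam` points in the intersections of two blocks is injective, has at most `lam + 2` ordered
pairs of different points with a given sum, and at least `v (v - 1) / (lam + 2)` sums of two different
points. (2) This holds for symmetric designs with `lam ≥ 2` except for the trivial designs and the
`2-(7, 4, 2)` design. (3) For all `lam ≥ 2`, `ε > 0` and `C` only finitely many pairs `(v, k)` are the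
parameters of symmetric designs detected by maps to groups of order at most `C v ^ (2 - ε)`. (4) The
same for the designs of (1). -/
theorem result :
    (∀ (v k lam : ℕ) (ι : Type) [Fintype ι] (B : ι → Finset (Fin v)) (G : Type) [AddCommGroup G]
      (f : Fin v → G), 2 ≤ lam → lam + 3 ≤ k → IsMeetDesign v k lam B → SumDetected k B f →
      Function.Injective f ∧
      (∀ g : G, Set.ncard {q : Fin v × Fin v | q.1 ≠ q.2 ∧ f q.1 + f q.2 = g} ≤ lam + 2) ∧
      v * (v - 1) ≤ (lam + 2) * Set.ncard {g : G | ∃ x y : Fin v, x ≠ y ∧ f x + f y = g}) ∧
    (∀ (v k lam : ℕ) (B : Fin v → Finset (Fin v)), 2 ≤ lam → IsSymmetricDesign v k lam B →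
      (lam + 3 ≤ k ∧ IsMeetDesign v k lam B) ∨ (v = lam + 2 ∧ k = lam + 1) ∨
        (v = 7 ∧ k = 4 ∧ lam = 2)) ∧
    (∀ (lam : ℕ) (ε C : ℝ), 2 ≤ lam → 0 < ε →
      {q : ℕ × ℕ | ∃ (B : Fin q.1 → Finset (Fin q.1)) (G : Type) (_ : AddCommGroup G)
        (_ : Fintype G) (f : Fin q.1 → G), IsSymmetricDesign q.1 q.2 lam B ∧
          SumDetected q.2 B f ∧ (Fintype.card G : ℝ) ≤ C * (q.1 : ℝ) ^ (2 - ε)}.Finite) ∧
    (∀ (lam : ℕ) (ε C : ℝ), 2 ≤ lam → 0 < ε →
      {q : ℕ × ℕ | lam + 3 ≤ q.2 ∧ ∃ (ι : Type) (_ : Fintype ι) (B : ι → Finset (Fin q.1))
        (G : Type) (_ : AddCommGroup G) (_ : Fintype G) (f : Fin q.1 → G),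
          IsMeetDesign q.1 q.2 lam B ∧ SumDetected q.2 B f ∧
          (Fintype.card G : ℝ) ≤ C * (q.1 : ℝ) ^ (2 - ε)}.Finite) := by
  refine ⟨?_, ?_, ?_, ?_⟩
  · intro v k lam ι _ B G _ f hlam h3 hD hf
    exact pairs_theorem hD hlam h3 hf
  · intro v k lam B hlam hD
    rcases small_cases hD hlam with h | h | h
    · exact Or.inl ⟨h, hD.meetDesign (by omega)⟩
    · exact Or.inr (Or.inl h)
    · exact Or.inr (Or.inr h)
  · intro lam ε C hlam hε
    obtain ⟨N, hN⟩ := order_bound lam hlam ε C hε
    refine ((Set.finite_Iic (lam + 7 + N)).prod (Set.finite_Iic (lam + 7 + N))).subset ?_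
    rintro ⟨v, k⟩ ⟨B, G, _, _, f, hD, hf, hG⟩
    simp only at hD hf hG
    have hkv := hD.lt
    have hv : v ≤ lam + 7 + N := by
      rcases small_cases hD hlam with h | h | h
      · have := hN v k (Fin v) B G f (hD.meetDesign (by omega)) h hf hG
        omega
      · omega
      · omega
    exact ⟨hv, by simp only [Set.mem_Iic]; omega⟩
  · intro lam ε C hlam hε
    obtain ⟨N, hN⟩ := order_bound lam hlam ε C hε
    refine ((Set.finite_Iic N).prod (Set.finite_Iic N)).subset ?_
    rintro ⟨v, k⟩ ⟨h, ι, _, B, G, _, _, f, hD, hf, hG⟩
    simp only at h hD hf hG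
    have hkv := hD.lt
    have hv : v ≤ N := hN v k ι B G f hD h hf hG
    exact ⟨hv, by simp only [Set.mem_Iic]; omega⟩

end Pool.Agent.Results.MP_c38931_co.SumsOfPairs
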